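import Pool.Agent.helper5.SYM.SpecB

/-!
# Row sy:DH (MP_45d809_mp): 2-groups of automorphisms embed in a dihedral group
-/

set_option autoImplicit false

namespace Pool.Agent.SYM
open Finset CT Polynomial

theorem DH (hFXC : FXC_stmt) (hFRE : FRE_stmt) (hDHE : DHE_stmt) : DH_stmt := by
  intro V _ G P hP hN hI
  classical
  obtain ⟨τ, d₀, hτ, hinv, hcir⟩ := hFXC V G P hP hN
  letI act : MulAction P G.Dart :=
    { smul := fun p d => sd p.1 d
      one_smul := fun d => by
        change sd (1 : G ≃g G) d = d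
        apply SimpleGraph.Dart.ext
        rfl
      mul_smul := fun p q d => by
        change sd (p.1 * q.1) d = sd p.1 (sd q.1 d)
        apply SimpleGraph.Dart.ext
        rfl }
  have hsm : ∀ (p : P) (d : G.Dart), p • d = sd p.1 d := fun _ _ => rfl
  refine hDHE G.Dart P (fun d => d.symm) τ d₀ (fun d => SimpleGraph.Dart.symm_symm d) hτ.1
    (fun d => SimpleGraph.Dart.symm_ne d) hτ.2.2 ?_ ?_ ?_ ?_
  · intro p d
    rw [hsm, hsm]
    apply SimpleGraph.Dart.ext
    rfl
  · intro p d
    rw [hsm, hsm]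
    exact (hinv p.1 p.2 d).symm
  · intro p hp
    rw [hsm] at hp
    exact Subtype.ext (hFRE V G P hP hI p.1 p.2 d₀ hp)
  · intro p
    rw [hsm]
    exact hcir p.1 p.2

end Pool.Agent.SYM
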