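import Pool.Agent.helper5.SYM.SpecA

/-!
# Row sy:EVG (MP_45d809_mp)
-/

set_option autoImplicit false

namespace Pool.Agent.SYM
open Finset CT Polynomial

theorem EVG_card {W : Type} [DecidableEq W] (C : Finset (W × Fin 4)) (K : Finset W)
    (h : ∀ c ∈ C, c.1 ∉ K) : (Ed C ∅ K).card = C.card + K.card := by
  unfold Ed jd
  rw [empty_product, union_empty, card_union_of_disjoint, card_product, card_singleton, mul_one]
  rw [disjoint_left]
  intro x hx hx'
  rw [mem_product] at hx'
  exact h x hx hx'.1

theorem EVG (hSC0 : SC0_stmt) (hL2 : L2_stmt) (hEVB : EVB_stmt) : EVG_stmt := by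
  intro W _ _ L C J K e α hA hCK hL k hk
  obtain ⟨h2, hB⟩ := hEVB W L C J K e α hA
  rw [hB, coeff_X_pow_mul']
  split_ifs with h3
  · have hJ : J.card = 0 := by omega
    have hCK2 : C.card + K.card = 2 := by omega
    have hk1 : k - (J.card + (C.card + K.card) / 2) = 0 := by omega
    rw [hk1]
    have hJ' : J = ∅ := card_eq_zero.1 hJ
    subst hJ'
    have hE : ∀ x ∈ Ed C ∅ K, x.1 ∉ L := by
      intro x hx
      unfold Ed jd at hx
      rw [empty_product, union_empty, mem_union] at hx
      rcases hx with hx | hx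
      · exact (hA.dC x hx).1
      · rw [mem_product] at hx
        exact hA.dK x.1 hx.1
    rw [hSC0 W (ZMod 2) (fun e' _ => X ^ so ∅ e') (fun _ => 1) L (Ed C ∅ K) e α hA.nd hE hA.act
      hA.vol (by
        intro e' α' _ _
        have h4 : so (∅ : Finset W) e' = 0 := by
          unfold so
          rw [filter_empty, card_empty]
        rw [h4, pow_zero, coeff_one_zero])]
    exact hL2 W (fun _ => 1) L (Ed C ∅ K) e hA.nd hE
      (by rw [EVG_card C K (fun c hc => (hA.dC c hc).2.2), hCK2]) hL hA.act
  · rfl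

end Pool.Agent.SYM
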